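import Mathlib
import Pool.Agent.H590.NL.Stm

/-!
# MP_85210c_gt in all dimensions: the pointwise second difference of the potential (task PW)
-/

set_option autoImplicit false

open Finset
open scoped BigOperators

namespace Pool.Agent.H930.NL

open H590NL

theorem uu_add {m : ℕ} {κ : Type} [Fintype κ] (v : κ → V (m + 1)) (s t : ℝ) (x η : V m) (j : κ) :
    uu v (s + t) (x + η) j = uu v s x j + uu v t η j := by
  unfold uu ip
  rw [← Finset.sum_add_distrib]
  refine Finset.sum_congr rfl fun i _ => ?_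
  refine Fin.cases ?_ (fun i => ?_) i
  · simp only [Fin.cons_zero]
    ring
  · simp only [Fin.cons_succ, Pi.add_apply]
    ring

theorem uu_sub {m : ℕ} {κ : Type} [Fintype κ] (v : κ → V (m + 1)) (s t : ℝ) (x η : V m) (j : κ) :
    uu v (s - t) (x - η) j = uu v s x j - uu v t η j := by
  unfold uu ip
  rw [← Finset.sum_sub_distrib]
  refine Finset.sum_congr rfl fun i _ => ?_
  refine Fin.cases ?_ (fun i => ?_) i
  · simp only [Fin.cons_zero]
    ring
  · simp only [Fin.cons_succ, Pi.sub_apply]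
    ring

theorem PW (h : S_JF) : S_PW := by
  intro m κ _ p b C ψ ω ψ2 ν hp1 hp2 hk v
  obtain ⟨hJ, -⟩ := h m κ v
  have hb := hk.hb
  have hC : 0 < C := by
    have := hk.bω 0
    linarith [this.1, this.2]
  obtain ⟨W, hW⟩ : ∃ W : ℝ, W = ∑ j, v j 0 ^ 2 := ⟨_, rfl⟩
  have hW0 : 0 ≤ W := by
    rw [hW]
    exact Finset.sum_nonneg fun j _ => sq_nonneg _
  obtain ⟨K, hK⟩ : ∃ K : ℝ, K = C * W / b := ⟨_, rfl⟩
  have hK0 : 0 ≤ K := by
    rw [hK]
    positivity
  have hbK : b * K = C * W := by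
    rw [hK]
    field_simp
  refine ⟨C * (Real.sqrt K * K), by positivity, ?_⟩
  intro s t ht x η
  obtain ⟨u, hu⟩ : ∃ u : κ → ℝ, u = fun j => uu v s x j := ⟨_, rfl⟩
  obtain ⟨e, he⟩ : ∃ e : κ → ℝ, e = fun j => uu v t η j := ⟨_, rfl⟩
  obtain ⟨hJ0, hJ1, -, hJ3⟩ := hJ (fun j => ω (uu v s x j)) (fun j => by
    have := (hk.bω (uu v s x j)).1
    linarith)
  obtain ⟨J, hJdef⟩ : ∃ J : ℝ, J = JJ v (fun j => ω (uu v s x j)) := ⟨_, rfl⟩
  have hJ3' := hJ3 t ht η
  rw [← hJdef] at hJ0 hJ1 hJ3' ⊢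
  have hG : (GG ψ v (s + t) (x + η) + GG ψ v (s - t) (x - η)) / 2 - GG ψ v s x =
      ∑ j, ((ψ (u j + e j) + ψ (u j - e j)) / 2 - ψ (u j)) := by
    unfold GG
    rw [← Finset.sum_add_distrib, Finset.sum_div, ← Finset.sum_sub_distrib]
    refine Finset.sum_congr rfl fun j _ => ?_
    rw [uu_add, uu_sub, hu, he]
  have hp : 0 < p - 1 := by linarith
  have key : (p - 1) * t ^ 2 * J - C * (Real.sqrt K * K) * t ^ 3 ≤
      ∑ j, ((ψ (u j + e j) + ψ (u j - e j)) / 2 - ψ (u j)) := by
    rcases le_total (∑ j, e j ^ 2) (K * t ^ 2) with hc | hc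
    · -- small case
      have hej : ∀ j, |e j| ≤ Real.sqrt K * t := by
        intro j
        have h1 : e j ^ 2 ≤ ∑ j, e j ^ 2 :=
          Finset.single_le_sum (f := fun j => e j ^ 2) (fun i _ => sq_nonneg _) (Finset.mem_univ j)
        have h2 : e j ^ 2 ≤ (Real.sqrt K * t) ^ 2 := by
          rw [mul_pow, Real.sq_sqrt hK0]
          linarith
        exact abs_le_of_sq_le_sq h2 (by positivity)
      have h3 : ∑ j, |e j| ^ 3 ≤ Real.sqrt K * K * t ^ 3 := by
        calc ∑ j, |e j| ^ 3 ≤ ∑ j, Real.sqrt K * t * e j ^ 2 := by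
              refine Finset.sum_le_sum fun j _ => ?_
              have : |e j| ^ 3 = |e j| * e j ^ 2 := by
                rw [pow_succ', sq_abs]
              rw [this]
              exact mul_le_mul_of_nonneg_right (hej j) (sq_nonneg _)
          _ = Real.sqrt K * t * ∑ j, e j ^ 2 := by rw [Finset.mul_sum]
          _ ≤ Real.sqrt K * t * (K * t ^ 2) := mul_le_mul_of_nonneg_left hc (by positivity)
          _ = Real.sqrt K * K * t ^ 3 := by ring
      have h4 : ∑ j, ((p - 1) * ω (u j) * e j ^ 2 - C * |e j| ^ 3) ≤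
          ∑ j, ((ψ (u j + e j) + ψ (u j - e j)) / 2 - ψ (u j)) :=
        Finset.sum_le_sum fun j _ => hk.sd2 (u j) (e j)
      refine le_trans ?_ h4
      rw [Finset.sum_sub_distrib, ← Finset.mul_sum]
      have h5 : ∑ j, (p - 1) * ω (u j) * e j ^ 2 = (p - 1) * ∑ j, ω (uu v s x j) * uu v t η j ^ 2 := by
        rw [Finset.mul_sum]
        refine Finset.sum_congr rfl fun j _ => ?_
        rw [hu, he]
        ring
      rw [h5]
      have h6 := mul_le_mul_of_nonneg_left hJ3' hp.le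
      have h7 := mul_le_mul_of_nonneg_left h3 hC.le
      nlinarith [h6, h7]
    · -- large case
      have h4 : ∑ j, ((p - 1) * b * e j ^ 2) ≤
          ∑ j, ((ψ (u j + e j) + ψ (u j - e j)) / 2 - ψ (u j)) :=
        Finset.sum_le_sum fun j _ => hk.sd1 (u j) (e j)
      refine le_trans ?_ h4
      rw [← Finset.mul_sum]
      have h5 : J ≤ C * W := by
        refine hJ1.trans ?_
        rw [hW, Finset.mul_sum]
        exact Finset.sum_le_sum fun j _ => mul_le_mul_of_nonneg_right (hk.bω _).2 (sq_nonneg _)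
      have h6 : (p - 1) * b * (K * t ^ 2) ≤ (p - 1) * b * ∑ j, e j ^ 2 :=
        mul_le_mul_of_nonneg_left hc (by positivity)
      have h7 : (p - 1) * b * (K * t ^ 2) = (p - 1) * t ^ 2 * (C * W) := by
        rw [← hbK]
        ring
      have h8 : (p - 1) * t ^ 2 * J ≤ (p - 1) * t ^ 2 * (C * W) :=
        mul_le_mul_of_nonneg_left h5 (by positivity)
      have h9 : 0 ≤ C * (Real.sqrt K * K) * t ^ 3 := by positivity
      linarith
  linarith [key, hG]

end Pool.Agent.H930.NL
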